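import Mathlib
import Pool.Agent.P8H61.LG.Fam

/-!
# Continuum many two-generated LEF groups with pairwise incomparable LEF growth

There is a family of groups `Γ x`, indexed by the `x : ℕ → Bool`, such that each `Γ x` is generated
by two elements, residually finite and LEF, and such that for `x ≠ y` and any finite generating sets
`S` of `Γ x` and `T` of `Γ y` the LEF growth of `Γ x` is not dominated by that of `Γ y`. In
particular the `Γ x` are pairwise not isomorphic and have pairwise inequivalent LEF growth.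

`Γ x` is the group generated by two elements `a`, `b` of a product of symmetric groups of cycles of
lengths `N_i`, where `i` is in a set `S_x` of natural numbers, with `m_i` cycles of the same length
for each `i` (`N_i` and `m_i` grow very fast): `b` rotates every cycle, and `a` is, on the `k`-th cycle
of scale `i`, the product of two transpositions of neighbours at a distance `d_{i,k}`. The commutator
of `a` and `b ^ d a b ^ (-d)` for `d = d_{i,k}` is a `3`-cycle on one single cycle. This gives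
`m_i * n_i` (with `N_i = 48 n_i`) pairs of elements of length `O (n_i)` with a pairing by commutators,
and thus a finite group with a local embedding of a ball of radius `O (n_i)` has order at least
`2 ^ (m_i n_i)`, for `i` in `S_x`. If `i` is not in `S_x`, the ball of radius `O (n_i)` does not see
the difference between the cycles of the larger scales and one cycle of length `O (n_i)`, so that it
has a local embedding in a much smaller group.
-/

set_option autoImplicit false

namespace Pool.Agent.Results.MP_bb1fdc_al.IncomparableGrowth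

/-- `π` restricts to a local embedding of `F` into `Q`: an injective partial homomorphism. -/
def LocalEmbedding {Γ Q : Type} [Group Γ] [Group Q] (F : Set Γ) (π : Γ → Q) : Prop :=
  Set.InjOn π F ∧ ∀ g ∈ F, ∀ h ∈ F, g * h ∈ F → π (g * h) = π g * π h

/-- `Γ` is LEF: every finite subset has a local embedding into a finite group. -/
def LEF (Γ : Type) [Group Γ] : Prop :=
  ∀ F : Set Γ, F.Finite → ∃ (Q : Type) (_ : Group Q) (_ : Finite Q) (π : Γ → Q),
    LocalEmbedding F π

/-- `Γ` is residually finite: every nontrivial element has a nontrivial image in a finite group. -/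
def ResiduallyFinite (Γ : Type) [Group Γ] : Prop :=
  ∀ g : Γ, g ≠ 1 → ∃ (Q : Type) (_ : Group Q) (_ : Finite Q) (φ : Γ →* Q), φ g ≠ 1

/-- The closed ball of radius `n` about `1` in the word metric of `S`. -/
def Ball {Γ : Type} [Group Γ] (S : Set Γ) (n : ℕ) : Set Γ :=
  {g | ∃ l : List Γ, (∀ x ∈ l, x ∈ S ∨ x⁻¹ ∈ S) ∧ l.length ≤ n ∧ l.prod = g}

/-- The LEF growth: the least order of a finite group with a local embedding of the ball of radius
`n`. -/
noncomputable def growth {Γ : Type} [Group Γ] (S : Set Γ) (n : ℕ) : ℕ :=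
  sInf {q | ∃ (Q : Type) (_ : Group Q) (_ : Finite Q) (π : Γ → Q),
    Nat.card Q = q ∧ LocalEmbedding (Ball S n) π}

/-- The LEF growth as a function on `(0, ∞)`, constant on the intervals `(n, n + 1]`. -/
noncomputable def extendedGrowth {Γ : Type} [Group Γ] (S : Set Γ) (x : ℝ) : ℝ :=
  (growth S ⌈x⌉₊ : ℝ)

/-- `f₁ ⪯ f₂`: there is `C > 0` with `f₁ x ≤ f₂ (C x)` for all `x > 0`. -/
def Dominated (f₁ f₂ : ℝ → ℝ) : Prop := ∃ C > 0, ∀ x > 0, f₁ x ≤ f₂ (C * x)

/-- `f₁ ≈ f₂` -/
def Equivalent (f₁ f₂ : ℝ → ℝ) : Prop := Dominated f₁ f₂ ∧ Dominated f₂ f₁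

open Pool.Agent.P8H61.LG

theorem growth_eq {Γ : Type} [Group Γ] (S : Set Γ) (n : ℕ) : growth S n = gr S n := rfl

/-- the groups -/
def Grp (x : ℕ → Bool) : Type := Gam (codes x)

instance (x : ℕ → Bool) : Group (Grp x) := inferInstanceAs (Group (Gam (codes x)))

/-- comparison of the LEF growth for two generating sets from a domination -/
theorem of_dominated {x y : ℕ → Bool} (S : Set (Grp x)) (T : Set (Grp y)) (hT : T.Finite)
    (hS' : Subgroup.closure S = ⊤) (h : Dominated (extendedGrowth S) (extendedGrowth T))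
    (hSf : S.Finite) : x = y := by
  obtain ⟨C, hC, h⟩ := h
  have gens := closure_gens (codes x)
  have gens' := closure_gens (codes y)
  have hfin : ({gA (codes x), gB (codes x)} : Set (Gam (codes x))).Finite := by simp
  obtain ⟨k₁, hk₁, h₁⟩ := ball_subset_ball (Γ := Gam (codes x)) (T := S) hfin hS'
  obtain ⟨k₂, hk₂, h₂⟩ := ball_subset_ball (Γ := Gam (codes y)) (S := T) hT gens'
  have lS : BallLEF (Γ := Gam (codes x)) S := (ballLEF_codes x).change hSf gens
  have lT : BallLEF (Γ := Gam (codes y)) T := (ballLEF_codes y).change hT gens'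
  apply family (x := x) (y := y) (k₂ * (⌈C⌉₊ * k₁))
  intro n hn
  have e1 : gr {gA (codes x), gB (codes x)} n ≤ gr (Γ := Gam (codes x)) S (k₁ * n) :=
    gr_le_gr lS (h₁ n)
  have hpos : (0 : ℝ) < ((k₁ * n : ℕ) : ℝ) := by
    have : 0 < k₁ * n := Nat.mul_pos hk₁ hn
    exact_mod_cast this
  have e2 := h ((k₁ * n : ℕ) : ℝ) hpos
  unfold extendedGrowth at e2
  rw [Nat.ceil_natCast] at e2
  have e3 : growth S (k₁ * n) ≤ growth T ⌈C * ((k₁ * n : ℕ) : ℝ)⌉₊ := by exact_mod_cast e2
  have e4 : ⌈C * ((k₁ * n : ℕ) : ℝ)⌉₊ ≤ ⌈C⌉₊ * (k₁ * n) := by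
    rw [Nat.ceil_le]
    push_cast
    apply mul_le_mul_of_nonneg_right (Nat.le_ceil C)
    positivity
  have e5 : gr (Γ := Gam (codes y)) T ⌈C * ((k₁ * n : ℕ) : ℝ)⌉₊ ≤
      gr (Γ := Gam (codes y)) T (⌈C⌉₊ * (k₁ * n)) :=
    gr_le_gr lT (ball_mono e4)
  have e6 : gr (Γ := Gam (codes y)) T (⌈C⌉₊ * (k₁ * n)) ≤
      gr {gA (codes y), gB (codes y)} (k₂ * (⌈C⌉₊ * (k₁ * n))) :=
    gr_le_gr (ballLEF_codes y) (h₂ _)
  have e7 : k₂ * (⌈C⌉₊ * (k₁ * n)) = k₂ * (⌈C⌉₊ * k₁) * n := by ring
  rw [e7] at e6
  exact e1.trans (e3.trans (e5.trans e6))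

/-- the LEF growth is invariant under isomorphisms -/
theorem dominated_of_equiv {Γ Δ : Type} [Group Γ] [Group Δ] (φ : Γ ≃* Δ) (S : Set Γ)
    (hl : BallLEF (φ '' S)) : Dominated (extendedGrowth S) (extendedGrowth (φ '' S)) := by
  refine ⟨1, one_pos, fun x _ => ?_⟩
  rw [one_mul]
  unfold extendedGrowth
  have hb : ∀ g ∈ ball S ⌈x⌉₊, φ g ∈ ball (φ '' S) ⌈x⌉₊ := by
    rintro g ⟨l, h1, h2, h3⟩
    refine ⟨l.map φ, ?_, by simpa using h2, ?_⟩
    · intro z hz
      obtain ⟨w, hw, rfl⟩ := List.mem_map.1 hz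
      rcases h1 w hw with h | h
      · exact Or.inl ⟨w, h, rfl⟩
      · exact Or.inr ⟨w⁻¹, h, map_inv φ w⟩
    · rw [← h3, map_list_prod]
  obtain ⟨Q, i1, i2, π, hq, hinj, hmul⟩ := gr_spec hl ⌈x⌉₊
  have : gr S ⌈x⌉₊ ≤ gr (φ '' S) ⌈x⌉₊ := by
    rw [← hq]
    refine gr_le Q (fun g => π (φ g)) ⟨?_, ?_⟩
    · intro g hg k hk hgk
      exact φ.injective (hinj (hb g hg) (hb k hk) hgk)
    · intro g hg k hk hgk
      have h1 := hmul (φ g) (hb g hg) (φ k) (hb k hk) (by rw [← map_mul]; exact hb _ hgk)
      rw [← map_mul] at h1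
      exact h1
  exact_mod_cast this

/-- There are groups `Γ x`, one for each `x : ℕ → Bool`, such that each `Γ x` is generated by two
elements, residually finite and LEF, and for `x ≠ y` the LEF growth of `Γ x` is not dominated by that
of `Γ y` (for all finite generating sets); in particular the LEF growths of the `Γ x` are pairwise
inequivalent and the `Γ x` are pairwise not isomorphic. -/
theorem result : ∃ (Γ : (ℕ → Bool) → Type) (_ : ∀ x, Group (Γ x)),
    Uncountable (ℕ → Bool) ∧
    (∀ x, (∃ a b : Γ x, Subgroup.closure {a, b} = ⊤) ∧ ResiduallyFinite (Γ x) ∧ LEF (Γ x)) ∧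
    (∀ x y, Nonempty (Γ x ≃* Γ y) → x = y) ∧
    (∀ (x y : ℕ → Bool) (S : Set (Γ x)) (T : Set (Γ y)), S.Finite → T.Finite →
      Subgroup.closure S = ⊤ → Subgroup.closure T = ⊤ →
      Dominated (extendedGrowth S) (extendedGrowth T) → x = y) ∧
    (∀ (x y : ℕ → Bool) (S : Set (Γ x)) (T : Set (Γ y)), S.Finite → T.Finite →
      Subgroup.closure S = ⊤ → Subgroup.closure T = ⊤ →
      Equivalent (extendedGrowth S) (extendedGrowth T) → x = y) := by
  refine ⟨Grp, fun x => inferInstance, ?_, fun x => ⟨?_, ?_, ?_⟩, ?_, ?_, ?_⟩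
  · rw [← Cardinal.mk_le_aleph0_iff.not.trans (not_countable_iff), not_le]
    simpa using Cardinal.aleph0_lt_continuum
  · exact ⟨gA (codes x), gB (codes x), closure_gens (codes x)⟩
  · intro g hg
    have h1 : ∃ p : ℕ × ℕ, (g.1 : GG) p ≠ 1 := by
      by_contra hne
      apply hg
      apply Subtype.ext
      funext p
      by_contra hp
      exact hne ⟨p, hp⟩
    obtain ⟨p, hp⟩ := h1
    exact ⟨Equiv.Perm (ZMod (NN p.1)), inferInstance, inferInstance,
      (Pi.evalMonoidHom _ p).comp (Gam (codes x)).subtype, hp⟩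
  · intro F hF
    obtain ⟨n, hn⟩ := exists_subset_ball (closure_gens (codes x)) hF
    obtain ⟨Q, i1, i2, π, hπ⟩ := ballLEF_codes x n
    exact ⟨Q, i1, i2, π, hπ.mono hn⟩
  · rintro x y ⟨φ⟩
    let S : Set (Grp x) := {gA (codes x), gB (codes x)}
    have hS : S.Finite := (Set.finite_singleton _).insert _
    have hcl : Subgroup.closure S = ⊤ := closure_gens (codes x)
    have hl : BallLEF (Γ := Gam (codes y)) (φ '' S) :=
      (ballLEF_codes y).change (hS.image _) (closure_gens (codes y))
    exact of_dominated S (φ '' S) (hS.image _) hcl (dominated_of_equiv φ S hl) hS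
  · intro x y S T hS hT hS' _ h
    exact of_dominated S T hT hS' h hS
  · intro x y S T hS hT hS' _ h
    exact of_dominated S T hT hS' h.1 hS

end Pool.Agent.Results.MP_bb1fdc_al.IncomparableGrowth
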